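import Pool.Agent.H44.MS.Basics

set_option autoImplicit false

/-!
# MP_232a1c_nt, module RCC: character sums over rough numbers
-/

namespace Pool.Agent.H81.MS

open Pool.Agent.H44.MS Finset Real

theorem sum_chi (n : ℕ) :
    ∑ b ∈ Icc 1 n, chi b = if n % 4 = 1 ∨ n % 4 = 2 then 1 else 0 := by
  induction n with
  | zero => simp
  | succ n ih =>
    rw [sum_Icc_succ_top (by omega), ih, chi_eq]
    have h : n % 4 = 0 ∨ n % 4 = 1 ∨ n % 4 = 2 ∨ n % 4 = 3 := by omega
    rcases h with h | h | h | h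
    · have h1 : (n + 1) % 4 = 1 := by omega
      rw [h, h1]
      norm_num
    · have h1 : (n + 1) % 4 = 2 := by omega
      rw [h, h1]
      norm_num
    · have h1 : (n + 1) % 4 = 3 := by omega
      rw [h, h1]
      norm_num
    · have h1 : (n + 1) % 4 = 0 := by omega
      rw [h, h1]
      norm_num

theorem abs_sum_chi (n : ℕ) : |∑ b ∈ Icc 1 n, chi b| ≤ 1 := by
  rw [sum_chi]
  split_ifs
  · rw [abs_one]
  · rw [abs_zero]
    exact zero_le_one

theorem sum_mult (x d : ℕ) (hd : 0 < d) :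
    ∑ b ∈ (Icc 1 x).filter (fun b => d ∣ b), chi b =
      chi d * ∑ b ∈ Icc 1 (x / d), chi b := by
  rw [mul_sum]
  refine Finset.sum_nbij' (fun b => b / d) (fun b => d * b) ?_ ?_ ?_ ?_ ?_
  · intro b hb
    obtain ⟨h1, c, rfl⟩ := mem_filter.1 hb
    rw [mem_Icc] at h1 ⊢
    rw [Nat.mul_div_cancel_left _ hd]
    refine ⟨?_, ?_⟩
    · rcases Nat.eq_zero_or_pos c with h | h
      · rw [h, mul_zero] at h1
        omega
      · exact h
    · rw [Nat.le_div_iff_mul_le hd, mul_comm]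
      exact h1.2
  · intro b hb
    rw [mem_Icc] at hb
    rw [mem_filter, mem_Icc]
    refine ⟨⟨Nat.mul_pos hd hb.1, ?_⟩, dvd_mul_right d b⟩
    have h2 := (Nat.le_div_iff_mul_le hd).1 hb.2
    rwa [mul_comm]
  · intro b hb
    exact Nat.mul_div_cancel' (mem_filter.1 hb).2
  · intro b _
    exact Nat.mul_div_cancel_left b hd
  · intro b hb
    obtain ⟨-, c, rfl⟩ := mem_filter.1 hb
    rw [chi_mul, Nat.mul_div_cancel_left _ hd]

theorem sum_div_chi (x : ℕ) (f : ℕ → ℝ) :
    ∑ b ∈ Icc 1 x, (∑ d ∈ b.divisors, f d) * chi b =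
      ∑ d ∈ Icc 1 x, f d * (chi d * ∑ b ∈ Icc 1 (x / d), chi b) := by
  classical
  have h1 : ∀ b ∈ Icc 1 x, (∑ d ∈ b.divisors, f d) * chi b =
      ∑ d ∈ Icc 1 x, if d ∣ b then f d * chi b else 0 := by
    intro b hb
    rw [sum_mul, ← sum_filter]
    refine sum_congr ?_ fun _ _ => rfl
    ext d
    simp only [Nat.mem_divisors, mem_filter, mem_Icc] at hb ⊢
    constructor
    · rintro ⟨hd, hm0⟩
      exact ⟨⟨Nat.pos_of_dvd_of_pos hd (by omega), (Nat.le_of_dvd (by omega) hd).trans hb.2⟩, hd⟩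
    · rintro ⟨_, hd⟩
      exact ⟨hd, by omega⟩
  rw [sum_congr rfl h1, sum_comm]
  refine sum_congr rfl fun d hd => ?_
  rw [← sum_filter, ← mul_sum, sum_mult x d (mem_Icc.1 hd).1]

theorem pf_RCC (TH : T_TH) (LV : T_LV) (DNb : T_DNb) (VT : T_VT) (RV : T_RV) : T_RCC := by
  obtain ⟨S, hS⟩ := DNb
  obtain ⟨CV, hCV, hVT⟩ := VT
  obtain ⟨CR, hCR, hRV⟩ := RV
  refine ⟨2 + 2 * CV + CR * 2 ^ S, by positivity, ?_⟩
  intro z x hz hx
  have hzR : (2 : ℝ) ≤ z := by exact_mod_cast hz
  have hlz : 0 < Real.log z := Real.log_pos (by linarith)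
  have hxz : z ≤ x := le_trans (Nat.le_self_pow (by norm_num) z) hx
  have hx2 : 2 ≤ x := hz.trans hxz
  have hx0 : (0 : ℝ) < x := by
    have : 0 < x := by omega
    exact_mod_cast this
  have hlx : 24 * Real.log z ≤ Real.log x := by
    have h1 : ((z ^ 24 : ℕ) : ℝ) ≤ x := by exact_mod_cast hx
    have h2 := Real.log_le_log (by positivity) h1
    rw [Nat.cast_pow, Real.log_pow] at h2
    exact_mod_cast h2
  have hlx0 : 0 < Real.log x := by linarith
  set t : ℝ := Real.log x / (10 * Real.log z) with ht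
  have hA : 0 ≤ (x : ℝ) * ((2 : ℝ) ^ (-t) / Real.log z) := by positivity
  have hB : 0 ≤ (x : ℝ) * (x : ℝ) ^ (-(1 / 4 : ℝ)) := by positivity
  have hgoal : (2 + 2 * CV + CR * 2 ^ S) * (x : ℝ) *
      ((2 : ℝ) ^ (-t) / Real.log z + (x : ℝ) ^ (-(1 / 4 : ℝ))) =
      (2 + 2 * CV + CR * 2 ^ S) * (x * ((2 : ℝ) ^ (-t) / Real.log z)) +
      (2 + 2 * CV + CR * 2 ^ S) * (x * (x : ℝ) ^ (-(1 / 4 : ℝ))) := by ring
  rw [hgoal]
  set s : ℕ := ⌊Real.log x / (8 * Real.log z)⌋₊ with hs
  have hs1 : (s : ℝ) ≤ Real.log x / (8 * Real.log z) := Nat.floor_le (by positivity)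
  have hs2 : Real.log x / (8 * Real.log z) < s + 1 := Nat.lt_floor_add_one _
  have hts : t ≤ Real.log x / (8 * Real.log z) := by
    rw [ht]
    exact div_le_div_of_nonneg_left hlx0.le (by positivity) (by linarith)
  rcases lt_or_ge s S with hsS | hsS
  · -- few blocks: the trivial bound
    have h1 : |∑ b ∈ Icc 1 x, ic (Rough z b) * chi b| ≤ ∑ b ∈ Icc 1 x, ic (Rough z b) := by
      refine (abs_sum_le_sum_abs _ _).trans (sum_le_sum fun b _ => ?_)
      rw [abs_mul, abs_ic]
      exact mul_le_of_le_one_right (ic_nonneg _) (abs_chi_le b)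
    have h2 := hRV 1 (by norm_num) (by norm_num) z x hz hxz
    have h3 : ∑ n ∈ Icc 1 x, ic (Rough z n) * (1 : ℝ) ^ Om z n =
        ∑ b ∈ Icc 1 x, ic (Rough z b) := sum_congr rfl fun b _ => by rw [one_pow, mul_one]
    rw [h3, sub_self, Real.rpow_zero, mul_one] at h2
    have h4 : (1 : ℝ) ≤ 2 ^ S * (2 : ℝ) ^ (-t) := by
      rw [← Real.rpow_natCast, ← Real.rpow_add (by norm_num)]
      refine Real.one_le_rpow (by norm_num) ?_
      have h5 : (s : ℝ) + 1 ≤ S := by exact_mod_cast hsS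
      linarith
    have h6 : CR * x / Real.log z ≤ CR * 2 ^ S * (x * ((2 : ℝ) ^ (-t) / Real.log z)) := by
      have h7 : CR * x / Real.log z * 1 ≤ CR * x / Real.log z * (2 ^ S * (2 : ℝ) ^ (-t)) :=
        mul_le_mul_of_nonneg_left h4 (by positivity)
      calc CR * x / Real.log z = CR * x / Real.log z * 1 := (mul_one _).symm
        _ ≤ CR * x / Real.log z * (2 ^ S * (2 : ℝ) ^ (-t)) := h7
        _ = _ := by ring
    have h8 : CR * 2 ^ S * (x * ((2 : ℝ) ^ (-t) / Real.log z)) ≤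
        (2 + 2 * CV + CR * 2 ^ S) * (x * ((2 : ℝ) ^ (-t) / Real.log z)) :=
      mul_le_mul_of_nonneg_right (by linarith) hA
    have h9 : 0 ≤ (2 + 2 * CV + CR * 2 ^ S) * (x * (x : ℝ) ^ (-(1 / 4 : ℝ))) := by positivity
    linarith
  · -- the Brun-Hooley sieve
    set A : ℕ → Prop := fun _ => True with hAdef
    set D : ℕ := z ^ (4 * s + 5) with hD
    have hD4 : z ^ (4 * s + 4) ≤ D := Nat.pow_le_pow_right (by omega) (by omega)
    have hlam : ∀ d, D < d → lam A s z d = 0 := by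
      intro d hd
      by_contra h
      have h1 : ic (An A z d ∧ Ok s z d) ≠ 0 := left_ne_zero_of_mul h
      have h2 := (LV A s z d hz).1 (ic_ne_zero h1)
      omega
    have hkap : ∀ d, D < d → kap A s z d = 0 := by
      intro d hd
      by_contra h
      have h0 : ic (An A z d ∧ Ok1 s z d) * mu d ≠ 0 := by
        intro h0
        exact h (by unfold kap; rw [h0, neg_zero])
      have h1 : ic (An A z d ∧ Ok1 s z d) ≠ 0 := left_ne_zero_of_mul h0
      have h2 := (LV A s z d hz).2 (ic_ne_zero h1)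
      omega
    -- restriction of a sum to `d ≤ D`
    have hres : ∀ F : ℕ → ℝ, (∀ d, D < d → F d = 0) → (∀ d, x < d → F d = 0) →
        ∑ d ∈ Icc 1 x, F d = ∑ d ∈ Icc 1 D, F d := by
      intro F h1 h2
      have e1 : ∑ d ∈ Icc 1 x, F d = ∑ d ∈ Icc 1 (max x D), F d := by
        refine sum_subset (Icc_subset_Icc le_rfl (le_max_left _ _)) fun d hd hd' => h2 d ?_
        rw [mem_Icc] at hd hd'
        omega
      have e2 : ∑ d ∈ Icc 1 D, F d = ∑ d ∈ Icc 1 (max x D), F d := by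
        refine sum_subset (Icc_subset_Icc le_rfl (le_max_right _ _)) fun d hd hd' => h1 d ?_
        rw [mem_Icc] at hd hd'
        omega
      rw [e1, e2]
    -- the main part
    have hfirst : |∑ b ∈ Icc 1 x, th A s z b * chi b| ≤ D := by
      have e1 : ∑ b ∈ Icc 1 x, th A s z b * chi b =
          ∑ d ∈ Icc 1 x, lam A s z d * (chi d * ∑ b ∈ Icc 1 (x / d), chi b) :=
        sum_div_chi x (lam A s z)
      have e2 : ∑ d ∈ Icc 1 x, lam A s z d * (chi d * ∑ b ∈ Icc 1 (x / d), chi b) =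
          ∑ d ∈ Icc 1 D, lam A s z d * (chi d * ∑ b ∈ Icc 1 (x / d), chi b) := by
        refine hres _ (fun d hd => by rw [hlam d hd, zero_mul]) fun d hd => ?_
        rw [Nat.div_eq_of_lt hd]
        simp
      rw [e1, e2]
      calc |∑ d ∈ Icc 1 D, lam A s z d * (chi d * ∑ b ∈ Icc 1 (x / d), chi b)|
          ≤ ∑ d ∈ Icc 1 D, |lam A s z d * (chi d * ∑ b ∈ Icc 1 (x / d), chi b)| :=
            abs_sum_le_sum_abs _ _
        _ ≤ ∑ d ∈ Icc 1 D, (1 : ℝ) := by
            refine sum_le_sum fun d _ => ?_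
            rw [abs_mul, abs_mul]
            exact mul_le_one₀ (abs_lam_le _ _ _ _) (by positivity)
              (mul_le_one₀ (abs_chi_le d) (abs_nonneg _) (abs_sum_chi _))
        _ = D := by
            rw [sum_const, Nat.card_Icc, nsmul_eq_mul, mul_one]
            norm_num
    -- the excess
    have hsecond : |∑ b ∈ Icc 1 x, (th A s z b - ic (Sv A z b)) * chi b| ≤
        x * (VA A z / 2 ^ s) + D := by
      have e1 : |∑ b ∈ Icc 1 x, (th A s z b - ic (Sv A z b)) * chi b| ≤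
          ∑ b ∈ Icc 1 x, exc A s z b := by
        refine (abs_sum_le_sum_abs _ _).trans (sum_le_sum fun b hb => ?_)
        obtain ⟨h1, h2⟩ := TH A s z b (mem_Icc.1 hb).1
        have h3 : 0 ≤ th A s z b - ic (Sv A z b) := sub_nonneg.2 h1
        rw [abs_mul, abs_of_nonneg h3]
        exact (mul_le_of_le_one_right h3 (abs_chi_le b)).trans h2
      have e2 : ∑ b ∈ Icc 1 x, exc A s z b =
          ∑ d ∈ Icc 1 D, kap A s z d * ((x / d : ℕ) : ℝ) := by
        have e3 : ∑ b ∈ Icc 1 x, exc A s z b =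
            ∑ d ∈ Icc 1 x, kap A s z d * ((x / d : ℕ) : ℝ) := sum_divisors_eq x (kap A s z)
        rw [e3]
        refine hres _ (fun d hd => by rw [hkap d hd, zero_mul]) fun d hd => ?_
        rw [Nat.div_eq_of_lt hd]
        simp
      have e4 : ∑ d ∈ Icc 1 D, kap A s z d * ((x / d : ℕ) : ℝ) ≤
          ∑ d ∈ Icc 1 D, (x * (kap A s z d / d) + 1) := by
        refine sum_le_sum fun d hd => ?_
        have hd0 : (0 : ℝ) < d := by
          have := (mem_Icc.1 hd).1
          exact_mod_cast this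
        have h1 : ((x / d : ℕ) : ℝ) ≤ (x : ℝ) / d := Nat.cast_div_le
        have h2 : (x : ℝ) / d - 1 ≤ ((x / d : ℕ) : ℝ) := by
          have h3 := Nat.lt_div_mul_add (a := x) (b := d) (mem_Icc.1 hd).1
          have h4 : (x : ℝ) < ((x / d : ℕ) : ℝ) * d + d := by exact_mod_cast h3
          rw [sub_le_iff_le_add, div_le_iff₀ hd0]
          linarith
        have h5 := abs_le.1 (abs_kap_le A s z d)
        have h6 : x * (kap A s z d / d) = kap A s z d * (x / d) := by ring
        rw [h6]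
        have h7 : kap A s z d * ((x / d : ℕ) : ℝ) - kap A s z d * (x / d) =
            (-kap A s z d) * (x / d - ((x / d : ℕ) : ℝ)) := by ring
        have h8 : (-kap A s z d) * (x / d - ((x / d : ℕ) : ℝ)) ≤
            1 * ((x : ℝ) / d - ((x / d : ℕ) : ℝ)) :=
          mul_le_mul_of_nonneg_right (by linarith) (by linarith)
        linarith
      have e5 : ∑ d ∈ Icc 1 D, (x * (kap A s z d / d) + 1) =
          x * ∑ d ∈ Icc 1 D, kap A s z d / d + D := by
        rw [sum_add_distrib, ← mul_sum, sum_const, Nat.card_Icc, nsmul_eq_mul, mul_one]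
        norm_num
      have e6 : x * ∑ d ∈ Icc 1 D, kap A s z d / d ≤ x * (VA A z / 2 ^ s) :=
        mul_le_mul_of_nonneg_left (hS s hsS A z hz) hx0.le
      linarith
    have hdec : ∑ b ∈ Icc 1 x, ic (Rough z b) * chi b =
        ∑ b ∈ Icc 1 x, th A s z b * chi b -
          ∑ b ∈ Icc 1 x, (th A s z b - ic (Sv A z b)) * chi b := by
      rw [← sum_sub_distrib]
      refine sum_congr rfl fun b _ => ?_
      rw [ic_congr (rough_iff_sv z b)]
      ring
    -- the size of `D`
    have hDx : (D : ℝ) ≤ x * (x : ℝ) ^ (-(1 / 4 : ℝ)) := by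
      have h1 : x * (x : ℝ) ^ (-(1 / 4 : ℝ)) = Real.exp (3 / 4 * Real.log x) := by
        rw [Real.rpow_def_of_pos hx0]
        nth_rewrite 1 [← Real.exp_log hx0]
        rw [← Real.exp_add]
        congr 1
        ring
      have h2 : (D : ℝ) = Real.exp ((4 * s + 5) * Real.log z) := by
        have h3 : (4 * (s : ℝ) + 5) = ((4 * s + 5 : ℕ) : ℝ) := by push_cast; ring
        rw [hD, Nat.cast_pow, h3, Real.exp_nat_mul, Real.exp_log (by linarith)]
      rw [h1, h2, Real.exp_le_exp]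
      have h3 : (s : ℝ) * (8 * Real.log z) ≤ Real.log x := by
        rw [le_div_iff₀ (by positivity)] at hs1
        exact hs1
      linarith
    -- the size of `2 ^ (- s)`
    have h2s : 1 / (2 : ℝ) ^ s ≤ 2 * (2 : ℝ) ^ (-t) := by
      have h1 : (1 : ℝ) / 2 ^ s = (2 : ℝ) ^ (-(s : ℝ)) := by
        rw [Real.rpow_neg (by norm_num), Real.rpow_natCast, one_div]
      have h2 : 2 * (2 : ℝ) ^ (-t) = (2 : ℝ) ^ (1 - t) := by
        rw [Real.rpow_sub (by norm_num), Real.rpow_one, Real.rpow_neg (by norm_num)]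
        ring
      rw [h1, h2]
      exact Real.rpow_le_rpow_of_exponent_le (by norm_num) (by linarith)
    have hVx : (x : ℝ) * (VA A z / 2 ^ s) ≤ 2 * CV * (x * ((2 : ℝ) ^ (-t) / Real.log z)) := by
      have h1 : VA A z / 2 ^ s ≤ CV / Real.log z / 2 ^ s :=
        div_le_div_of_nonneg_right (hVT z hz) (by positivity)
      have h2 : CV / Real.log z / 2 ^ s ≤ CV / Real.log z * (2 * (2 : ℝ) ^ (-t)) := by
        rw [div_eq_mul_one_div]
        exact mul_le_mul_of_nonneg_left h2s (by positivity)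
      calc (x : ℝ) * (VA A z / 2 ^ s) ≤ x * (CV / Real.log z * (2 * (2 : ℝ) ^ (-t))) :=
            mul_le_mul_of_nonneg_left (h1.trans h2) hx0.le
        _ = _ := by ring
    have hfin : |∑ b ∈ Icc 1 x, ic (Rough z b) * chi b| ≤
        D + (x * (VA A z / 2 ^ s) + D) := by
      rw [hdec]
      exact (abs_sub _ _).trans (add_le_add hfirst hsecond)
    have h10 : 2 * CV * (x * ((2 : ℝ) ^ (-t) / Real.log z)) ≤
        (2 + 2 * CV + CR * 2 ^ S) * (x * ((2 : ℝ) ^ (-t) / Real.log z)) :=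
      mul_le_mul_of_nonneg_right (by
        have : 0 < CR * 2 ^ S := by positivity
        linarith) hA
    have h11 : 2 * (x * (x : ℝ) ^ (-(1 / 4 : ℝ))) ≤
        (2 + 2 * CV + CR * 2 ^ S) * (x * (x : ℝ) ^ (-(1 / 4 : ℝ))) :=
      mul_le_mul_of_nonneg_right (by
        have : 0 < CR * 2 ^ S := by positivity
        linarith) hB
    linarith

end Pool.Agent.H81.MS
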