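import Pool.Agent.H44.MS.Basics

set_option autoImplicit false

/-!
# MP_232a1c_nt, module S2: the number of sums of two squares
-/

namespace Pool.Agent.H81.MS

open Pool.Agent.H44.MS Finset Real

/-- no prime factor `3 mod 4` -/
def NG (n : ℕ) : Prop := ∀ p : ℕ, p.Prime → p % 4 = 3 → ¬ p ∣ n

theorem repr_NG {m : ℕ} (hm : 0 < m) (h : ∃ a b : ℤ, a ^ 2 + b ^ 2 = (m : ℤ)) :
    ∃ k n : ℕ, 0 < k ∧ 0 < n ∧ k ^ 2 * n = m ∧ NG n := by
  obtain ⟨a, b, hab⟩ := h
  have h1 : ∃ x y : ℕ, m = x ^ 2 + y ^ 2 := by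
    refine ⟨a.natAbs, b.natAbs, ?_⟩
    zify
    rw [sq_abs, sq_abs, hab]
  obtain ⟨k, n, hkn, hs⟩ := Nat.eq_sq_add_sq_iff_eq_sq_mul.1 h1
  have hk : 0 < k := by
    rcases Nat.eq_zero_or_pos k with h | h
    · rw [h] at hkn
      simp at hkn
      omega
    · exact h
  have hn : 0 < n := by
    rcases Nat.eq_zero_or_pos n with h | h
    · rw [h] at hkn
      simp at hkn
      omega
    · exact h
  refine ⟨k, n, hk, hn, hkn.symm, ?_⟩
  intro p hp hp3 hpn
  have := Fact.mk hp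
  exact (ZMod.exists_sq_eq_neg_one_iff.1 (ZMod.isSquare_neg_one_of_dvd hpn hs)) hp3

/-- the counting function -/
noncomputable def NN (X : ℕ) : ℝ := ∑ n ∈ Icc 1 X, ic (NG n)

theorem NN_le (X : ℕ) : NN X ≤ X := by
  unfold NN
  calc ∑ n ∈ Icc 1 X, ic (NG n) ≤ ∑ n ∈ Icc 1 X, (1 : ℝ) := sum_le_sum fun n _ => ic_le_one _
    _ = X := by
      rw [sum_const, Nat.card_Icc, nsmul_eq_mul, mul_one]
      norm_num

theorem count_le (x : ℕ) :
    ∑ m ∈ Icc 1 x, ic (∃ a b : ℤ, a ^ 2 + b ^ 2 = (m : ℤ)) ≤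
      ∑ k ∈ Icc 1 (Nat.sqrt x), NN (x / k ^ 2) := by
  classical
  have h1 : ∀ m ∈ Icc 1 x, ic (∃ a b : ℤ, a ^ 2 + b ^ 2 = (m : ℤ)) ≤
      ∑ k ∈ Icc 1 (Nat.sqrt x), ∑ n ∈ Icc 1 (x / k ^ 2), if k ^ 2 * n = m then ic (NG n) else 0 := by
    intro m hm
    rw [mem_Icc] at hm
    have hnn : ∀ k n : ℕ, (0 : ℝ) ≤ if k ^ 2 * n = m then ic (NG n) else 0 := by
      intro k n
      split_ifs
      · exact ic_nonneg _
      · exact le_rfl
    by_cases h : ∃ a b : ℤ, a ^ 2 + b ^ 2 = (m : ℤ)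
    · obtain ⟨k, n, hk, hn, hkn, hN⟩ := repr_NG (by omega) h
      have hk2 : k ^ 2 ≤ m := by
        rw [← hkn]
        exact Nat.le_mul_of_pos_right _ hn
      have hkm : k ∈ Icc 1 (Nat.sqrt x) := by
        rw [mem_Icc]
        exact ⟨hk, Nat.le_sqrt'.2 (hk2.trans hm.2)⟩
      have hnm : n ∈ Icc 1 (x / k ^ 2) := by
        rw [mem_Icc]
        refine ⟨hn, (Nat.le_div_iff_mul_le (by positivity)).2 ?_⟩
        rw [mul_comm, hkn]
        exact hm.2
      rw [ic_pos h]
      calc (1 : ℝ) = if k ^ 2 * n = m then ic (NG n) else 0 := by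
            rw [if_pos hkn, ic_pos hN]
        _ ≤ ∑ n ∈ Icc 1 (x / k ^ 2), if k ^ 2 * n = m then ic (NG n) else 0 :=
            single_le_sum (fun n _ => hnn k n) hnm
        _ ≤ _ := single_le_sum (f := fun k => ∑ n ∈ Icc 1 (x / k ^ 2),
            if k ^ 2 * n = m then ic (NG n) else 0) (fun k _ => sum_nonneg fun n _ => hnn k n) hkm
    · rw [ic_neg h]
      exact sum_nonneg fun k _ => sum_nonneg fun n _ => hnn k n
  refine (sum_le_sum h1).trans ?_
  rw [sum_comm]
  refine sum_le_sum fun k _ => ?_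
  rw [sum_comm]
  unfold NN
  refine sum_le_sum fun n _ => ?_
  rw [sum_ite_eq]
  split_ifs
  · exact le_rfl
  · exact ic_nonneg _

/-- tails of the series of the inverse squares -/
theorem tail_sq (q N : ℕ) : ∑ k ∈ Ioc q N, 1 / (k : ℝ) ^ 2 ≤ 2 / ((q : ℝ) + 1) := by
  rcases le_or_gt q N with h | h
  · have key : ∑ k ∈ Ioc q N, 1 / (k : ℝ) ^ 2 ≤ 2 / ((q : ℝ) + 1) - 2 / ((N : ℝ) + 1) := by
      induction N, h using Nat.le_induction with
      | base => simp
      | succ N hN ih =>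
        rw [sum_Ioc_succ_top hN]
        have e : 1 / ((N + 1 : ℕ) : ℝ) ^ 2 ≤ 2 / ((N : ℝ) + 1) - 2 / (((N + 1 : ℕ) : ℝ) + 1) := by
          push_cast
          have h1 : (0 : ℝ) < (N : ℝ) + 1 := by positivity
          have h2 : (0 : ℝ) < (N : ℝ) + 1 + 1 := by positivity
          rw [div_sub_div _ _ h1.ne' h2.ne', div_le_div_iff₀ (by positivity) (by positivity)]
          nlinarith [mul_pos h1 h1, mul_pos h1 h2]
        linarith
    have : (0 : ℝ) ≤ 2 / ((N : ℝ) + 1) := by positivity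
    linarith
  · rw [Ioc_eq_empty (by omega), sum_empty]
    positivity

theorem pf_S2 (h : T_GV) : T_S2 := by
  obtain ⟨C, hC, hGV⟩ := h
  refine ⟨4 * C + 8, by positivity, ?_⟩
  intro x hx
  have hxR : (2 : ℝ) ≤ x := by exact_mod_cast hx
  have hx0 : (0 : ℝ) < x := by linarith
  have hlx : 0 < Real.log x := Real.log_pos (by linarith)
  have hsl : 0 < √(Real.log x) := Real.sqrt_pos.2 hlx
  -- separation of `m = 0`
  have hsplit : ∑ m ∈ Icc 0 x, ic (∃ a b : ℤ, a ^ 2 + b ^ 2 = (m : ℤ)) ≤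
      1 + ∑ m ∈ Icc 1 x, ic (∃ a b : ℤ, a ^ 2 + b ^ 2 = (m : ℤ)) := by
    have e : Icc 0 x = insert 0 (Icc 1 x) := by
      ext m
      simp only [mem_Icc, mem_insert]
      omega
    rw [e, sum_insert (by simp)]
    have := ic_le_one (∃ a b : ℤ, a ^ 2 + b ^ 2 = ((0 : ℕ) : ℤ))
    linarith
  have hone : (1 : ℝ) ≤ x / √(Real.log x) := by
    rw [le_div_iff₀ hsl, one_mul, Real.sqrt_le_left hx0.le]
    have h1 : Real.log x ≤ x := Real.log_le_self hx0.le
    nlinarith
  have hcount := count_le x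
  rcases lt_or_ge x 4 with h4 | h4
  · -- small `x`
    have h1 : ∑ m ∈ Icc 1 x, ic (∃ a b : ℤ, a ^ 2 + b ^ 2 = (m : ℤ)) ≤ x := by
      calc ∑ m ∈ Icc 1 x, ic (∃ a b : ℤ, a ^ 2 + b ^ 2 = (m : ℤ)) ≤ ∑ m ∈ Icc 1 x, (1 : ℝ) :=
            sum_le_sum fun n _ => ic_le_one _
        _ = x := by
          rw [sum_const, Nat.card_Icc, nsmul_eq_mul, mul_one]
          norm_num
    have h2 : (x : ℝ) ≤ 3 := by
      have : x ≤ 3 := by omega
      exact_mod_cast this
    have h3 : √(Real.log x) ≤ 2 := by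
      rw [Real.sqrt_le_left (by norm_num)]
      have := Real.log_le_self hx0.le
      linarith
    have h5 : (x : ℝ) ≤ 2 * (x / √(Real.log x)) := by
      rw [mul_div_assoc', le_div_iff₀ hsl]
      nlinarith
    have h6 : (4 * C + 8) * x / √(Real.log x) = (4 * C + 8) * (x / √(Real.log x)) := by
      rw [mul_div_assoc]
    rw [h6]
    have h7 : 0 ≤ 4 * C * (x / √(Real.log x)) := by positivity
    nlinarith
  · set r : ℕ := Nat.sqrt x with hr
    set q : ℕ := Nat.sqrt r with hq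
    have hr2 : 2 ≤ r := Nat.le_sqrt'.2 (by omega)
    have hrx : r * r ≤ x := Nat.sqrt_le x
    have hxr : x < (r + 1) * (r + 1) := Nat.lt_succ_sqrt x
    have hqr : q * q ≤ r := Nat.sqrt_le r
    have hrq : r < (q + 1) * (q + 1) := Nat.lt_succ_sqrt r
    have hrR : (2 : ℝ) ≤ r := by exact_mod_cast hr2
    -- `log r ≥ log x / 4`
    have hlr : Real.log x ≤ 4 * Real.log r := by
      have h1 : (x : ℝ) ≤ (r : ℝ) ^ 4 := by
        have h2 : x ≤ r ^ 4 := by
          have h3 : r + 1 ≤ r * r := by nlinarith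
          calc x ≤ (r + 1) * (r + 1) := hxr.le
            _ ≤ (r * r) * (r * r) := Nat.mul_le_mul h3 h3
            _ = r ^ 4 := by ring
        exact_mod_cast h2
      have h2 := Real.log_le_log hx0 h1
      rw [Real.log_pow] at h2
      exact_mod_cast h2
    have hlr0 : 0 < Real.log r := Real.log_pos (by linarith)
    -- `√ log x ≤ 2 (q + 1)`
    have hlq : √(Real.log x) ≤ 2 * ((q : ℝ) + 1) := by
      rw [Real.sqrt_le_left (by positivity)]
      have h1 : (x : ℝ) ≤ ((q : ℝ) + 1) ^ 4 := by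
        have h2 : x ≤ (q + 1) ^ 4 := by
          calc x ≤ (r + 1) * (r + 1) := hxr.le
            _ ≤ ((q + 1) * (q + 1)) * ((q + 1) * (q + 1)) := Nat.mul_le_mul hrq hrq
            _ = (q + 1) ^ 4 := by ring
        exact_mod_cast h2
      have h2 := Real.log_le_log hx0 h1
      rw [Real.log_pow] at h2
      have h3 : Real.log ((q : ℝ) + 1) ≤ (q : ℝ) + 1 := Real.log_le_self (by positivity)
      have h4 : (0 : ℝ) ≤ q := Nat.cast_nonneg q
      push_cast at h2
      nlinarith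
    -- one value of `k`
    have hterm : ∀ k ∈ Icc 1 r, NN (x / k ^ 2) ≤
        2 * C * x / √(Real.log x) * (1 / (k : ℝ) ^ 2) +
          if q < k then x * (1 / (k : ℝ) ^ 2) else 0 := by
      intro k hk
      rw [mem_Icc] at hk
      have hk0 : (0 : ℝ) < k := by
        have : 0 < k := hk.1
        exact_mod_cast this
      have hdiv : ((x / k ^ 2 : ℕ) : ℝ) ≤ x * (1 / (k : ℝ) ^ 2) := by
        have := Nat.cast_div_le (α := ℝ) (m := x) (n := k ^ 2)
        push_cast at this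
        rw [mul_one_div]
        exact this
      by_cases hqk : q < k
      · rw [if_pos hqk]
        have h1 := (NN_le (x / k ^ 2)).trans hdiv
        have h2 : 0 ≤ 2 * C * x / √(Real.log x) * (1 / (k : ℝ) ^ 2) := by positivity
        linarith
      · rw [if_neg hqk, add_zero]
        have hkr : k ^ 2 ≤ r := by
          have : k ≤ q := not_lt.1 hqk
          calc k ^ 2 = k * k := sq k
            _ ≤ q * q := Nat.mul_le_mul this this
            _ ≤ r := hqr
        have hX : r ≤ x / k ^ 2 := by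
          rw [Nat.le_div_iff_mul_le (by have := hk.1; positivity)]
          exact (Nat.mul_le_mul_left r hkr).trans hrx
        have hX2 : 2 ≤ x / k ^ 2 := hr2.trans hX
        have h1 := hGV 1 (by norm_num) (by norm_num) (x / k ^ 2) (x / k ^ 2) hX2 le_rfl
        rw [sub_self, Real.rpow_zero, mul_one] at h1
        have h2 : NN (x / k ^ 2) ≤ C * ((x / k ^ 2 : ℕ) : ℝ) / √(Real.log ((x / k ^ 2 : ℕ) : ℝ)) := by
          refine le_trans (sum_le_sum fun n _ => ?_) h1
          rw [one_pow, mul_one]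
          exact ic_mono fun h p hp h3 _ _ => h p hp h3
        have hlX : Real.log x ≤ 4 * Real.log ((x / k ^ 2 : ℕ) : ℝ) := by
          have h3 : Real.log r ≤ Real.log ((x / k ^ 2 : ℕ) : ℝ) :=
            Real.log_le_log (by linarith) (by exact_mod_cast hX)
          linarith
        have hsX : √(Real.log x) ≤ 2 * √(Real.log ((x / k ^ 2 : ℕ) : ℝ)) := by
          rw [Real.sqrt_le_left (by positivity), mul_pow, Real.sq_sqrt (by linarith)]
          linarith
        have hsX0 : 0 < √(Real.log ((x / k ^ 2 : ℕ) : ℝ)) := by linarith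
        refine h2.trans ?_
        rw [div_le_iff₀ hsX0]
        have h4 : 2 * C * x / √(Real.log x) * (1 / (k : ℝ) ^ 2) *
            √(Real.log ((x / k ^ 2 : ℕ) : ℝ)) = (C * (x * (1 / (k : ℝ) ^ 2))) *
              (2 * √(Real.log ((x / k ^ 2 : ℕ) : ℝ)) / √(Real.log x)) := by ring
        rw [h4]
        have h5 : 1 ≤ 2 * √(Real.log ((x / k ^ 2 : ℕ) : ℝ)) / √(Real.log x) := by
          rw [le_div_iff₀ hsl, one_mul]
          exact hsX
        calc C * ((x / k ^ 2 : ℕ) : ℝ) ≤ C * (x * (1 / (k : ℝ) ^ 2)) :=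
              mul_le_mul_of_nonneg_left hdiv hC.le
          _ = C * (x * (1 / (k : ℝ) ^ 2)) * 1 := (mul_one _).symm
          _ ≤ _ := mul_le_mul_of_nonneg_left h5 (by positivity)
    have hsum : ∑ k ∈ Icc 1 r, NN (x / k ^ 2) ≤
        2 * C * x / √(Real.log x) * 2 + x * (2 / ((q : ℝ) + 1)) := by
      refine (sum_le_sum hterm).trans ?_
      rw [sum_add_distrib, ← mul_sum]
      have e1 : ∑ k ∈ Icc 1 r, 1 / (k : ℝ) ^ 2 ≤ 2 := by
        have h1 := tail_sq 0 r
        have h2 : Ioc 0 r = Icc 1 r := rfl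
        rw [h2] at h1
        norm_num at h1 ⊢
        exact h1
      have e2 : ∑ k ∈ Icc 1 r, (if q < k then x * (1 / (k : ℝ) ^ 2) else 0) ≤
          x * (2 / ((q : ℝ) + 1)) := by
        rw [← sum_filter, ← mul_sum]
        refine mul_le_mul_of_nonneg_left ?_ hx0.le
        refine le_trans (le_of_eq (sum_congr ?_ fun _ _ => rfl)) (tail_sq q r)
        ext k
        simp only [mem_filter, mem_Icc, mem_Ioc]
        omega
      refine add_le_add (mul_le_mul_of_nonneg_left e1 (by positivity)) e2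
    have hlast : x * (2 / ((q : ℝ) + 1)) ≤ 4 * (x / √(Real.log x)) := by
      have h1 : 2 / ((q : ℝ) + 1) ≤ 4 / √(Real.log x) := by
        rw [div_le_div_iff₀ (by positivity) hsl]
        linarith
      calc x * (2 / ((q : ℝ) + 1)) ≤ x * (4 / √(Real.log x)) :=
            mul_le_mul_of_nonneg_left h1 hx0.le
        _ = _ := by ring
    have h6 : (4 * C + 8) * x / √(Real.log x) =
        2 * C * x / √(Real.log x) * 2 + 8 * (x / √(Real.log x)) := by ring
    rw [h6]
    linarith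

end Pool.Agent.H81.MS
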